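import Pool.Agent.H94.LP4.M48

/-!
# Module PosE (TA): quantitative positivity of the solution of the load equations

`x u` points are put in the cell `(u, 0)`, `u < ℓ`, and the load of every layer differs from `g ≥ 0` by at
most `E`.  Then `x u ≥ g / ℓ³ - 4 ℓ³ E`.
-/

namespace Pool.Agent.H18.Ta

open Finset

private theorem PosE_ld {ℓ μ u s : ℕ} :
    ld ℓ μ u 0 s = if s < u then μ - (ℓ - 1 - s) else μ - (s - u) := by
  unfold ld rk
  split_ifs <;> omega

private theorem PosE_aux (μ ℓ : ℕ) (hμ : 1 ≤ μ) (hℓ : 2 * μ ≤ ℓ) (x : ℕ → ℝ) (g E : ℝ) (hg : 0 ≤ g)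
    (hEp : 0 ≤ E) (h : ∀ s < ℓ, |∑ u ∈ range ℓ, x u * (ld ℓ μ u 0 s : ℝ) - g| ≤ E) :
    ∀ s < ℓ, g / (3 * μ ^ 3) - (μ * (4 + μ * (2 * ℓ + 2) + 2 * ℓ) + 2) * E ≤ x s := by
  set τ : ℕ → ℕ := fun s => μ - (ℓ - 1 - s) with hτ
  set F : ℕ → ℝ := fun s => ∑ u ∈ Ico s ℓ, x u with hF
  set W : ℕ → ℝ := fun s => ∑ u ∈ Ico (s - μ) s, x u with hW
  set ε : ℕ → ℝ := fun s => ∑ u ∈ range ℓ, x u * (ld ℓ μ u 0 s : ℝ) - g with hε
  have hε1 : ∀ s < ℓ, -E ≤ ε s := fun s hs => (abs_le.1 (h s hs)).1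
  have hε2 : ∀ s < ℓ, ε s ≤ E := fun s hs => (abs_le.1 (h s hs)).2
  -- the equations
  have hE : ∀ s < ℓ, ∑ u ∈ range (s + 1), x u * ((μ - (s - u) : ℕ) : ℝ) +
      (τ s : ℝ) * F (s + 1) = g + ε s := by
    intro s hs
    have h0 : g + ε s = ∑ u ∈ range ℓ, x u * (ld ℓ μ u 0 s : ℝ) := by
      simp only [hε]
      ring
    rw [h0, range_eq_Ico, range_eq_Ico, ← sum_Ico_consecutive _ (Nat.zero_le (s + 1))
      (by omega : s + 1 ≤ ℓ)]
    congr 1
    · refine sum_congr rfl fun u hu => ?_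
      rw [mem_Ico] at hu
      rw [PosE_ld, if_neg (by omega)]
    · rw [hF]
      simp only
      rw [mul_sum]
      refine sum_congr rfl fun u hu => ?_
      rw [mem_Ico] at hu
      rw [PosE_ld, if_pos (by omega)]
      ring
  -- the differences
  have hWsum : ∀ s, ∑ u ∈ range (s + 1), x u * ((μ - (s - u) : ℕ) : ℝ) -
      ∑ u ∈ range (s + 1), x u * ((μ - (s + 1 - u) : ℕ) : ℝ) = W (s + 1) := by
    intro s
    rw [← sum_sub_distrib, range_eq_Ico,
      ← sum_Ico_consecutive _ (Nat.zero_le (s + 1 - μ)) (by omega : s + 1 - μ ≤ s + 1)]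
    have h1 : ∑ u ∈ Ico 0 (s + 1 - μ), (x u * ((μ - (s - u) : ℕ) : ℝ) -
        x u * ((μ - (s + 1 - u) : ℕ) : ℝ)) = 0 := by
      refine sum_eq_zero fun u hu => ?_
      rw [mem_Ico] at hu
      rw [show μ - (s - u) = 0 by omega, show μ - (s + 1 - u) = 0 by omega]
      simp
    rw [h1, zero_add]
    refine sum_congr rfl fun u hu => ?_
    rw [mem_Ico] at hu
    rw [show μ - (s - u) = μ - (s + 1 - u) + 1 by omega]
    push_cast
    ring
  have hD : ∀ s, s + 1 < ℓ → (μ : ℝ) * x (s + 1) - W (s + 1) + (τ (s + 1) : ℝ) * F (s + 2) -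
      (τ s : ℝ) * F (s + 1) = ε (s + 1) - ε s := by
    intro s hs
    have h1 := hE s (by omega)
    have h2 := hE (s + 1) hs
    rw [sum_range_succ, Nat.sub_self, Nat.sub_zero] at h2
    have h3 := hWsum s
    rw [show s + 1 + 1 = s + 2 from rfl] at h2
    linear_combination h2 - h1 + h3
  have hFs : ∀ s < ℓ, F s = x s + F (s + 1) := by
    intro s hs
    rw [hF]
    simp only
    rw [sum_eq_sum_Ico_succ_bot hs]
  have hWs : ∀ s, μ ≤ s → W (s + 1) + x (s - μ) = W s + x s := by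
    intro s hs
    rw [hW]
    simp only
    rw [sum_Ico_succ_top (by omega : s + 1 - μ ≤ s), sum_eq_sum_Ico_succ_bot (by omega : s - μ < s),
      show s - μ + 1 = s + 1 - μ by omega]
    ring
  have hμ1 : (1 : ℝ) ≤ μ := by exact_mod_cast hμ
  have hμ0 : (0 : ℝ) < μ := by linarith
  have hℓ1 : (0 : ℝ) ≤ ℓ := Nat.cast_nonneg _
  set q : ℝ := g / μ ^ 2 with hq
  have hq0 : 0 ≤ q := by positivity
  have hgq : g = q * μ ^ 2 := by
    rw [hq]
    field_simp
  -- first phase
  have hP0 : (μ : ℝ) * x 0 = g + ε 0 := by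
    have h1 := hE 0 (by omega)
    rw [sum_range_one, Nat.sub_self, Nat.sub_zero] at h1
    have h2 : τ 0 = 0 := by
      simp only [hτ]
      omega
    rw [h2, Nat.cast_zero, zero_mul, add_zero] at h1
    linarith only [h1]
  have hx0 : q * μ - 2 * E ≤ x 0 := by
    have h1 := hε1 0 (by omega)
    by_contra hn
    push Not at hn
    have h2 : (μ : ℝ) * x 0 < μ * (q * μ - 2 * E) := mul_lt_mul_of_pos_left hn hμ0
    nlinarith only [hgq, hP0, h1, h2, hEp, hμ1]
  have hP1 : ∀ s, s < ℓ - μ → q - 2 * (s + 1) * E ≤ x s := by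
    intro s
    induction s using Nat.strong_induction_on with
    | _ s ih =>
      intro hs
      rcases Nat.eq_zero_or_pos s with rfl | hs0
      · rw [Nat.cast_zero]
        nlinarith only [hx0, hμ1, hq0]
      · obtain ⟨s, rfl⟩ : ∃ s', s = s' + 1 := ⟨s - 1, by omega⟩
        have h1 := hD s (by omega)
        have h2 : τ s = 0 := by
          simp only [hτ]
          omega
        have h3 : τ (s + 1) = 0 := by
          simp only [hτ]
          omega
        rw [h2, h3, Nat.cast_zero, zero_mul, zero_mul, add_zero, sub_zero] at h1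
        have e1 := hε1 (s + 1) (by omega)
        have e2 := hε2 s (by omega)
        have hs1 : (0 : ℝ) ≤ s := Nat.cast_nonneg _
        rcases Nat.lt_or_ge μ (s + 1) with h4 | h4
        · -- all terms have a positive index
          have h5 : (μ : ℝ) * (q - 2 * (s + 1) * E) ≤ W (s + 1) := by
            rw [hW]
            simp only
            have h6 : ∑ _u ∈ Ico (s + 1 - μ) (s + 1), (q - 2 * (s + 1) * E) =
                (μ : ℝ) * (q - 2 * (s + 1) * E) := by
              rw [sum_const, Nat.card_Ico, nsmul_eq_mul, show s + 1 - (s + 1 - μ) = μ by omega]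
            rw [← h6]
            refine sum_le_sum fun u hu => ?_
            rw [mem_Ico] at hu
            have h7 := ih u (by omega) (by omega)
            have h8 : (u : ℝ) ≤ s := by exact_mod_cast (by omega : u ≤ s)
            nlinarith only [h7, hEp, h8]
          by_contra hn
          push Not at hn
          have h6 : (μ : ℝ) * x (s + 1) < μ * (q - 2 * (((s + 1 : ℕ) : ℝ) + 1) * E) :=
            mul_lt_mul_of_pos_left hn hμ0
          push_cast at h6
          nlinarith only [h1, e1, e2, h5, h6, hEp, hμ1, mul_nonneg hEp (sub_nonneg.2 hμ1)]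
        · -- the index zero occurs
          have h5 : (q * μ - 2 * E) - (s : ℝ) * (2 * (s + 1) * E) ≤ W (s + 1) := by
            rw [hW]
            simp only
            rw [show s + 1 - μ = 0 by omega, sum_eq_sum_Ico_succ_bot (by omega : 0 < s + 1)]
            have h6 : ∑ _u ∈ Ico (0 + 1) (s + 1), (-(2 * ((s : ℝ) + 1) * E)) =
                -((s : ℝ) * (2 * (s + 1) * E)) := by
              rw [sum_const, Nat.card_Ico, nsmul_eq_mul, show s + 1 - (0 + 1) = s by omega]
              ring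
            have h7 : ∑ _u ∈ Ico (0 + 1) (s + 1), (-(2 * ((s : ℝ) + 1) * E)) ≤
                ∑ u ∈ Ico (0 + 1) (s + 1), x u := by
              refine sum_le_sum fun u hu => ?_
              rw [mem_Ico] at hu
              have h7 := ih u (by omega) (by omega)
              have h8 : (u : ℝ) ≤ s := by exact_mod_cast (by omega : u ≤ s)
              nlinarith only [hq0, h7, hEp, h8]
            linarith only [hx0, h6, h7]
          have h9 : (s : ℝ) + 1 ≤ μ := by exact_mod_cast h4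
          by_contra hn
          push Not at hn
          have h6 : (μ : ℝ) * x (s + 1) < μ * (q - 2 * (((s + 1 : ℕ) : ℝ) + 1) * E) :=
            mul_lt_mul_of_pos_left hn hμ0
          push_cast at h6
          have h10 : (s : ℝ) * (2 * (s + 1) * E) ≤ (μ - 1) * (2 * (s + 1) * E) := by
            apply mul_le_mul_of_nonneg_right (by linarith only [h9])
            positivity
          nlinarith only [h1, e1, e2, h5, h6, h10, hEp, hμ1, hs1, mul_nonneg hEp (sub_nonneg.2 hμ1), mul_nonneg hEp hs1]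
  have hP1' : ∀ s, s < ℓ - μ → q - 2 * ℓ * E ≤ x s := by
    intro s hs
    have h1 := hP1 s hs
    have h2 : (s : ℝ) + 1 ≤ ℓ := by exact_mod_cast (by omega : s + 1 ≤ ℓ)
    nlinarith only [h1, hEp, h2]
  -- second phase
  set A : ℕ → ℝ := fun t => W (ℓ - μ + t) - F (ℓ - μ + t) with hA
  have hA1 : ∀ t, t < μ → ((μ - t - 1 : ℕ) : ℝ) * x (ℓ - μ + t) =
      A t + (ε (ℓ - μ + t) - ε (ℓ - μ + t - 1)) := by
    intro t ht
    obtain ⟨s, hs⟩ : ∃ s, ℓ - μ + t = s + 1 := ⟨ℓ - μ + t - 1, by omega⟩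
    have h1 := hD s (by omega)
    have h2 : τ s = t := by
      simp only [hτ]
      omega
    have h3 : τ (s + 1) = t + 1 := by
      simp only [hτ]
      omega
    have h4 := hFs (s + 1) (by omega)
    rw [h2, h3] at h1
    have h5 : ((μ - t - 1 : ℕ) : ℝ) = (μ : ℝ) - t - 1 := by
      rw [Nat.sub_sub, Nat.cast_sub (by omega)]
      push_cast
      ring
    rw [hA]
    simp only
    rw [hs, h5, Nat.add_sub_cancel]
    push_cast at h1
    rw [show s + 2 = s + 1 + 1 from rfl] at h1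
    linear_combination h1 + (t + 1 : ℝ) * h4
  have hη : ∀ t, t < μ → -(2 * E) ≤ ε (ℓ - μ + t) - ε (ℓ - μ + t - 1) ∧
      ε (ℓ - μ + t) - ε (ℓ - μ + t - 1) ≤ 2 * E := by
    intro t ht
    have e1 := hε1 (ℓ - μ + t) (by omega)
    have e2 := hε2 (ℓ - μ + t) (by omega)
    have e3 := hε1 (ℓ - μ + t - 1) (by omega)
    have e4 := hε2 (ℓ - μ + t - 1) (by omega)
    constructor <;> linarith only [e1, e4, e2, e3]
  have hA2 : ∀ t, t + 1 < μ → A (t + 1) + x (ℓ - μ + t - μ) = A t + 2 * x (ℓ - μ + t) := by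
    intro t ht
    have h1 := hWs (ℓ - μ + t) (by omega)
    have h2 := hFs (ℓ - μ + t) (by omega)
    rw [hA]
    simp only
    rw [show ℓ - μ + (t + 1) = ℓ - μ + t + 1 by omega]
    linear_combination h1 + h2
  have hA3 : ∀ k, k < μ → -((2 + k * (2 * ℓ + 2)) * E) ≤ A (μ - 1 - k) ∧
      (1 ≤ k → q / 3 - (2 + k * (2 * ℓ + 2)) * E ≤ A (μ - 1 - k)) := by
    intro k
    induction k with
    | zero =>
      intro _
      have h1 := hA1 (μ - 1) (by omega)
      have h2 := hη (μ - 1) (by omega)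
      rw [show μ - (μ - 1) - 1 = 0 by omega, Nat.cast_zero, zero_mul] at h1
      rw [Nat.sub_zero, Nat.cast_zero]
      exact ⟨by linarith only [h1, h2, h2.2], fun h => absurd h (by norm_num)⟩
    | succ k ih =>
      intro hk
      have ih' := (ih (by omega)).1
      obtain ⟨t, ht⟩ : ∃ t, μ - 1 - (k + 1) = t := ⟨_, rfl⟩
      have ht1 : μ - 1 - k = t + 1 := by omega
      rw [ht1] at ih'
      rw [ht]
      have h1 := hA1 t (by omega)
      have h2 := hA2 t (by omega)
      have h3 := hP1' (ℓ - μ + t - μ) (by omega)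
      have h4 : (1 : ℝ) ≤ ((μ - t - 1 : ℕ) : ℝ) := by
        have : 1 ≤ μ - t - 1 := by omega
        exact_mod_cast this
      have hη' := hη t (by omega)
      set η : ℝ := ε (ℓ - μ + t) - ε (ℓ - μ + t - 1) with hηd
      set p : ℝ := ((μ - t - 1 : ℕ) : ℝ) with hp
      set G : ℝ := 2 + k * (2 * ℓ + 2) with hG
      have hG0 : 0 ≤ G := by positivity
      have h5 : (p + 2) * A t = p * (A (t + 1) + x (ℓ - μ + t - μ)) - 2 * η := by
        rw [h2]
        linear_combination (-2 : ℝ) * h1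
      have h6 : p * (q - (G + 2 * ℓ) * E) ≤ p * (A (t + 1) + x (ℓ - μ + t - μ)) := by
        apply mul_le_mul_of_nonneg_left _ (by linarith only [h4])
        linarith only [h3, ih']
      have h7 : (p + 2) * (q / 3 - (G + (2 * ℓ + 2)) * E) ≤ (p + 2) * A t := by
        rw [h5]
        nlinarith only [hEp, hη', h6, h4, hq0, hG0, hℓ1, mul_nonneg (sub_nonneg.2 h4) hq0, mul_nonneg hG0 hEp, mul_nonneg hℓ1 hEp,
          mul_nonneg (sub_nonneg.2 h4) hEp]
      have h8 : q / 3 - (G + (2 * ℓ + 2)) * E ≤ A t := le_of_mul_le_mul_left h7 (by linarith only [h4])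
      have h9 : 2 + ((k + 1 : ℕ) : ℝ) * (2 * ℓ + 2) = G + (2 * ℓ + 2) := by
        rw [hG]
        push_cast
        ring
      rw [h9]
      exact ⟨by linarith only [hq0, h8], fun _ => h8⟩
  have hq3 : g / (3 * μ ^ 3) = q / (3 * μ) := by
    rw [hq]
    field_simp
  set Q : ℝ := 4 + μ * (2 * ℓ + 2) + 2 * ℓ with hQ
  have hQ0 : 0 ≤ Q := by positivity
  have hqle : q / (3 * μ) ≤ q / 3 := by
    apply div_le_div_of_nonneg_left hq0 (by norm_num)
    linarith only [hμ1]
  have hP2 : ∀ s, s + 1 < ℓ → q / (3 * μ) - Q * E ≤ x s := by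
    intro s hs
    rcases Nat.lt_or_ge s (ℓ - μ) with h1 | h1
    · have h2 := hP1' s h1
      have h3 : 2 * (ℓ : ℝ) * E ≤ Q * E := by
        apply mul_le_mul_of_nonneg_right _ hEp
        rw [hQ]
        nlinarith only [hμ1]
      linarith only [hq0, hqle, h2, h3]
    · obtain ⟨t, rfl⟩ := Nat.exists_eq_add_of_le h1
      have h2 := hA1 t (by omega)
      have h3 := (hA3 (μ - 1 - t) (by omega)).2 (by omega)
      rw [show μ - 1 - (μ - 1 - t) = t by omega] at h3
      have hη' := hη t (by omega)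
      set η : ℝ := ε (ℓ - μ + t) - ε (ℓ - μ + t - 1) with hηd
      have h4 : (1 : ℝ) ≤ ((μ - t - 1 : ℕ) : ℝ) := by
        have : 1 ≤ μ - t - 1 := by omega
        exact_mod_cast this
      have h4' : ((μ - t - 1 : ℕ) : ℝ) ≤ μ := by
        exact_mod_cast (by omega : μ - t - 1 ≤ μ)
      set p : ℝ := ((μ - t - 1 : ℕ) : ℝ) with hp
      have h5 : ((μ - 1 - t : ℕ) : ℝ) ≤ μ := by
        exact_mod_cast (by omega : μ - 1 - t ≤ μ)
      have h6 : (2 + ((μ - 1 - t : ℕ) : ℝ) * (2 * ℓ + 2)) * E + 2 * E ≤ Q * E := by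
        rw [← add_mul]
        apply mul_le_mul_of_nonneg_right _ hEp
        rw [hQ]
        nlinarith only [h5]
      have h7 : q / 3 - Q * E ≤ p * x (ℓ - μ + t) := by
        rw [h2]
        linarith only [h3, hη', h6, hη'.1]
      by_contra hn
      push Not at hn
      have h8 : p * x (ℓ - μ + t) < p * (q / (3 * μ) - Q * E) :=
        mul_lt_mul_of_pos_left hn (by linarith only [h4])
      have h9 : p * (q / (3 * μ)) ≤ q / 3 := by
        have h10 : q / 3 = μ * (q / (3 * μ)) := by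
          field_simp
        rw [h10]
        apply mul_le_mul_of_nonneg_right h4'
        positivity
      nlinarith only [h3, hη', h2, h6, h8, h9, h4, hQ0, hEp, mul_nonneg hQ0 hEp]
  -- the last layer
  have hμQ : Q ≤ μ * Q := by nlinarith only [hμ1, hQ0]
  rw [hq3]
  intro s hs
  rcases Nat.lt_or_ge (s + 1) ℓ with h1 | h1
  · have h2 := hP2 s h1
    nlinarith only [hEp, h2, hμQ]
  · have hs' : s = ℓ - 1 := by omega
    have h2 := hA1 (μ - 1) (by omega)
    have hη' := hη (μ - 1) (by omega)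
    rw [show μ - (μ - 1) - 1 = 0 by omega, Nat.cast_zero, zero_mul] at h2
    rw [hA] at h2
    simp only at h2
    rw [show ℓ - μ + (μ - 1) = s by omega] at h2 hη'
    have h3 : F s = x s := by
      rw [hFs s hs, hF]
      simp only
      rw [Ico_eq_empty_of_le (by omega), sum_empty, add_zero]
    have h4 : (μ : ℝ) * (q / (3 * μ) - Q * E) ≤ W s := by
      rw [hW]
      simp only
      have h6 : ∑ _u ∈ Ico (s - μ) s, (q / (3 * μ) - Q * E) =
          (μ : ℝ) * (q / (3 * μ) - Q * E) := by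
        rw [sum_const, Nat.card_Ico, nsmul_eq_mul, show s - (s - μ) = μ by omega]
      rw [← h6]
      refine sum_le_sum fun u hu => ?_
      rw [mem_Ico] at hu
      exact hP2 u (by omega)
    have h5 : q / (3 * μ) ≤ μ * (q / (3 * μ)) := by
      have : 0 ≤ q / (3 * μ) := by positivity
      nlinarith only [hμ1, this]
    nlinarith only [h2, hη', h3, h4, h5]

/-- A lower bound for the solution. -/
theorem bndE (μ ℓ : ℕ) (hμ : 1 ≤ μ) (hℓ : 2 * μ ≤ ℓ) (x : ℕ → ℝ) (g E : ℝ) (hg : 0 ≤ g)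
    (hEp : 0 ≤ E) (h : ∀ s < ℓ, |∑ u ∈ range ℓ, x u * (ld ℓ μ u 0 s : ℝ) - g| ≤ E) :
    ∀ s < ℓ, g / ℓ ^ 3 - 4 * ℓ ^ 3 * E ≤ x s := by
  intro s hs
  refine le_trans ?_ (PosE_aux μ ℓ hμ hℓ x g E hg hEp h s hs)
  have hμ1 : (1 : ℝ) ≤ μ := by exact_mod_cast hμ
  have hℓ1 : 2 * (μ : ℝ) ≤ ℓ := by exact_mod_cast hℓ
  have hℓ2 : (2 : ℝ) ≤ ℓ := by linarith
  have h1 : g / (ℓ : ℝ) ^ 3 ≤ g / (3 * (μ : ℝ) ^ 3) := by
    apply div_le_div_of_nonneg_left hg (by positivity)
    have h2 : (2 * (μ : ℝ)) ^ 3 ≤ (ℓ : ℝ) ^ 3 := pow_le_pow_left₀ (by positivity) hℓ1 3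
    have h3 : (0 : ℝ) ≤ (μ : ℝ) ^ 3 := by positivity
    nlinarith only [h2, h3]
  have h2 : ((μ : ℝ) * (4 + μ * (2 * ℓ + 2) + 2 * ℓ) + 2) * E ≤ 4 * ℓ ^ 3 * E := by
    apply mul_le_mul_of_nonneg_right _ hEp
    have e1 : (μ : ℝ) ≤ ℓ / 2 := by linarith only [hℓ1]
    have e2 : (4 : ℝ) + μ * (2 * ℓ + 2) + 2 * ℓ ≤ 4 + ℓ / 2 * (2 * ℓ + 2) + 2 * ℓ := by
      nlinarith only [hℓ1]
    have e3 : (4 : ℝ) + ℓ / 2 * (2 * ℓ + 2) + 2 * ℓ ≤ 4 * ℓ ^ 2 := by nlinarith only [hμ1, e2]
    have e4 : (μ : ℝ) * (4 + μ * (2 * ℓ + 2) + 2 * ℓ) ≤ ℓ / 2 * (4 * ℓ ^ 2) := by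
      apply mul_le_mul e1 (e2.trans e3) (by positivity) (by positivity)
    have e5 : (8 : ℝ) ≤ ℓ ^ 3 := by
      have := pow_le_pow_left₀ (by norm_num : (0 : ℝ) ≤ 2) hℓ2 3
      norm_num at this
      exact this
    nlinarith only [e4, e5]
  linarith only [h1, h2]

end Pool.Agent.H18.Ta
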